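import Pool.Agent.Q289.DI.Rec
import Pool.Agent.Q289.DI.Trans

/-!
# Random stirring given that no other cycle is contained in a set

Let `σ` be the random stirring permutation at time `t`, for arbitrary symmetric rates on a finite
set `V`.

* The probability that no cycle of `σ` is contained in a set `A` is the determinant
  `det (1 - p_t|_A)`, where `p_t` is the transition matrix of the random walk.
* Given that no cycle is contained in `A`, the cycle started at `x` leaves `A` for the first time
  at `y` with exactly the probability with which the discrete time random walk with transition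
  matrix `p_t` does.
* Given that no cycle is contained in `A`, except possibly the one of `x`, the cycle of `x` stays
  in `A` with exactly the probability that the discrete time random walk with transition matrix
  `p_t` returns to `x` before it leaves `A`.

On the torus `(ℤ / L)^d` this gives a dichotomy: in dimension `2` the cycle of `x`, under this
conditioning, leaves a box of radius `r` with probability at most `8 t / log (r + 1)`; in dimension
`d ≥ 3` it leaves every set which contains at most half of the torus with probability at least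
`c min (1, t)`, uniformly in `L`.
-/

set_option autoImplicit false

namespace Pool.Agent.Results.MP_6c3d62_pr.ConditionalDichotomy

open Finset Equiv Matrix
open Pool.Agent.Y998.ST hiding E

section

variable {V : Type} [Fintype V] [DecidableEq V]

open Classical in
/-- The probability of the event `S` under random stirring with rates `J` at time `t`. -/
noncomputable def prob (J : V → V → ℝ) (t : ℝ) (S : Perm V → Prop) : ℝ :=
  stirExp J t fun g => if S g then 1 else 0

/-- The conditional probability of the event `T`, given the event `S`. -/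
noncomputable def condProb (J : V → V → ℝ) (t : ℝ) (S T : Perm V → Prop) : ℝ :=
  prob J t (fun g => S g ∧ T g) / prob J t S

omit [Fintype V] [DecidableEq V] in
/-- No cycle of `g` (fixed points are cycles) is contained in `A`. -/
def NoCycleIn (A : Finset V) (g : Perm V) : Prop := ∀ v ∈ A, ∃ n : ℕ, (g ^ n) v ∉ A

omit [Fintype V] [DecidableEq V] in
/-- The cycle of `x` is not contained in `A`. -/
def Leaves (A : Finset V) (x : V) (g : Perm V) : Prop := ∃ n : ℕ, (g ^ n) x ∉ A

omit [Fintype V] [DecidableEq V] in
/-- The first point outside `A` of the sequence `x, g x, g² x, ...` is `y`. -/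
def LeavesAt (A : Finset V) (x y : V) (g : Perm V) : Prop :=
  y ∉ A ∧ ∃ n : ℕ, (∀ k < n, (g ^ k) x ∈ A) ∧ (g ^ n) x = y

/-- The transition matrix `p_t` of the random walk. -/
noncomputable def step (J : V → V → ℝ) (t : ℝ) : Matrix V V ℝ := Matrix.of fun a b => hop J t a b

/-- The transition matrix of the walk with transition matrix `p_t`, stopped outside `A`: the entry
`x y` of its `n`-th power, for `y ∉ A`, is the probability that the walk started at `x` leaves `A`
at its `n`-th step, to `y`. -/
noncomputable def stopped (J : V → V → ℝ) (t : ℝ) (A : Finset V) : Matrix V V ℝ :=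
  Matrix.of fun a b => if a ∈ A then hop J t a b else 0

end

/-- Random stirring, conditioned on that no other cycle is contained in `A`. -/
theorem result :
    -- arbitrary rates on a finite set
    (∀ (V : Type) [Fintype V] [DecidableEq V] (J : V → V → ℝ), (∀ x y, 0 ≤ J x y) →
      (∀ x y, J x y = J y x) → (∀ x, J x x = 0) → ∀ t : ℝ, 0 ≤ t →
      (∀ M N : Matrix V V ℝ,
        stirExp J t (fun g => (M + N * Matrix.of fun a b => if g a = b then 1 else 0).det) =
          (M + N * step J t).det) ∧
      ∀ A : Finset V,
        prob J t (NoCycleIn A) = (1 - stopped J t A).det ∧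
        (0 < prob J t (NoCycleIn A) → ∀ x y, y ∉ A →
          HasSum (fun n : ℕ => (stopped J t A ^ n) x y)
            (condProb J t (NoCycleIn A) (LeavesAt A x y))) ∧
        ∀ x ∈ A, 0 < prob J t (NoCycleIn (A.erase x)) →
          HasSum (fun n : ℕ => (step J t * stopped J t (A.erase x) ^ n) x x)
            (condProb J t (NoCycleIn (A.erase x)) fun g => ¬ Leaves A x g)) ∧
    -- the conditioning makes sense on the torus
    (∀ (d L : ℕ) [NeZero L], 3 ≤ L → ∀ t : ℝ, 0 < t → ∀ A : Finset (Fin d → ZMod L),
      A ≠ Finset.univ → 0 < prob (nnRate d L) t (NoCycleIn A)) ∧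
    -- dimension two
    (∀ (L : ℕ) [NeZero L], 3 ≤ L → ∀ r : ℕ, 0 < r → 2 * r < L → ∀ t : ℝ, 0 < t →
      ∀ (x : Fin 2 → ZMod L) (A : Finset (Fin 2 → ZMod L)),
        (∀ v : Fin 2 → ZMod L, (∀ i, (v i - x i).valMinAbs.natAbs < r) → v ∈ A) →
        condProb (nnRate 2 L) t (NoCycleIn (A.erase x)) (Leaves A x) ≤
          8 * t / Real.log (r + 1)) ∧
    -- dimension at least three
    (∀ d : ℕ, 3 ≤ d → ∃ c : ℝ, 0 < c ∧ ∀ (L : ℕ) [NeZero L], 3 ≤ L → ∀ t : ℝ, 0 < t →
      ∀ A : Finset (Fin d → ZMod L), 2 * A.card ≤ L ^ d → ∀ x ∈ A,
        c * min 1 t ≤ condProb (nnRate d L) t (NoCycleIn (A.erase x)) (Leaves A x)) := by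
  refine ⟨?_, ?_, ?_, ?_⟩
  · intro V _ _ J hJ hs h0 t ht
    refine ⟨fun M N => Q289.DI.exp_det hs h0 M N t, fun A => ⟨?_, ?_, ?_⟩⟩
    · exact Q289.DI.prob_free hs h0 t A
    · intro hp x y hy
      exact Q289.DI.exit_law hJ hs h0 ht A x y hy hp.ne'
    · intro x hx hp
      exact Q289.DI.return_law hJ hs h0 ht A x hx hp.ne'
  · intro d L _ hL t ht A hA
    exact Q289.DI.torus_free_pos hL ht hA
  · intro L _ hL r hr0 hr t ht x A hA
    have hx : x ∈ A := hA x fun i => by
      rw [sub_self]
      simpa using hr0
    have hne : A.erase x ≠ Finset.univ := fun h => Finset.notMem_erase x A (by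
      rw [h]; exact Finset.mem_univ x)
    have hpos : 0 < Q289.DI.prob (nnRate 2 L) t (Q289.DI.Free (A.erase x)) :=
      Q289.DI.torus_free_pos hL ht hne
    have h1 := Q289.DI.escape_two hL hr0 hr ht.le x A hA
    have h2 := (Q289.DI.prob_split (J := nnRate 2 L) t hx).1
    show Q289.DI.prob (nnRate 2 L) t (fun g => Q289.DI.Free (A.erase x) g ∧ Q289.DI.Esc A g x) /
      Q289.DI.prob (nnRate 2 L) t (Q289.DI.Free (A.erase x)) ≤ _
    rw [h2, div_le_iff₀ hpos]
    exact h1
  · intro d hd
    obtain ⟨c, hc, h⟩ := Q289.DI.escape_ge d hd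
    refine ⟨c, hc, fun L _ hL t ht A hA x hx => ?_⟩
    have hne : A.erase x ≠ Finset.univ := fun h => Finset.notMem_erase x A (by
      rw [h]; exact Finset.mem_univ x)
    have hpos : 0 < Q289.DI.prob (nnRate d L) t (Q289.DI.Free (A.erase x)) :=
      Q289.DI.torus_free_pos hL ht hne
    have h2 := (Q289.DI.prob_split (J := nnRate d L) t hx).1
    show _ ≤ Q289.DI.prob (nnRate d L) t (fun g => Q289.DI.Free (A.erase x) g ∧
      Q289.DI.Esc A g x) / Q289.DI.prob (nnRate d L) t (Q289.DI.Free (A.erase x))
    rw [h2, le_div_iff₀ hpos]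
    exact h L hL t ht A hA x hx

end Pool.Agent.Results.MP_6c3d62_pr.ConditionalDichotomy
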