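import Pool.Agent.Q292.LC.FinT

/-!
# Nearest neighbour stirring: cycles are exponentially long

For nearest neighbour random stirring on the torus `(ℤ / L)^d`, `d ≥ 3`, at time `t`, the cycle of a
point has at most `n` points with probability at most `C (t ^ (-d/2) + n / L^d)`, for every large
`t`, all `L`, and all `n ≤ exp (t ^ c)`; for `t ≥ (log L)^m` for all `n ≤ L^d / t`. The bound is sharp:
`t ^ (-d/2)` is the order of the probability of a fixed point.
-/

set_option autoImplicit false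

namespace Pool.Agent.Results.MP_6c3d62_pr.ExponentiallyLongCycles

open Finset Equiv
open Pool.Agent.Y998.ST (stirExp nnRate cycleLen)

/-- The probability that the cycle of `x` has at most `n` points at time `t`. -/
noncomputable def shortProb (d L : ℕ) [NeZero L] (t : ℝ) (n : ℕ) (x : Fin d → ZMod L) : ℝ :=
  stirExp (nnRate d L) t (fun g => if cycleLen g x ≤ n then 1 else 0)

/-- Nearest neighbour random stirring on the torus `(ℤ / L)^d`, `d ≥ 3`, started at the identity.
There are constants `C`, `c > 0`, `t₀` and `m`, which depend only on `d`, such that: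

(1) for all `t ≥ t₀`, all `L` and all `n ≥ 1` with `n t ≤ L^d`, if `n ≤ exp (t ^ c)` or
`t ≥ (log L)^m`, the cycle of any point has at most `n` points with probability at most
`C (t ^ (-d/2) + n / L^d)`;

(2) for all `L ≥ 3`, `1 ≤ t ≤ 2 L ^ 2` and all `n ≥ 1` this probability is at least
`c t ^ (-d/2)`. -/
theorem result (d : ℕ) (hd : 3 ≤ d) : ∃ (C c t₀ : ℝ) (m : ℕ), 0 < c ∧
    (∀ t : ℝ, t₀ ≤ t → ∀ (L : ℕ) [NeZero L] (n : ℕ), 1 ≤ n → (n : ℝ) * t ≤ (L : ℝ) ^ d →
      ((n : ℝ) ≤ Real.exp (t ^ c) ∨ (Real.log L) ^ m ≤ t) → ∀ x : Fin d → ZMod L,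
      shortProb d L t n x ≤ C * (t ^ (-(d / 2 : ℝ)) + n / (L : ℝ) ^ d)) ∧
    ∀ (L : ℕ) [NeZero L], 3 ≤ L → ∀ t : ℝ, 1 ≤ t → t ≤ 2 * (L : ℝ) ^ 2 → ∀ n : ℕ, 1 ≤ n →
      ∀ x : Fin d → ZMod L, c * t ^ (-(d / 2 : ℝ)) ≤ shortProb d L t n x := by
  obtain ⟨C, c, t₀, m, hc, ht₀, hC, h1⟩ := Q292.LC.tail Q292.LC.all_tls Q292.LC.all_lcs d hd
  obtain ⟨c', hc', h2⟩ := Q292.LC.tail_low Q292.LC.all_hkl d (by omega)
  refine ⟨C, min c c', t₀, m, lt_min hc hc', ?_, ?_⟩
  · intro t ht L _ n hn hnt hcase x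
    refine h1 t ht L n hn hnt ?_ x
    rcases hcase with h | h
    · left
      refine h.trans (Real.exp_le_exp.2 ?_)
      exact Real.rpow_le_rpow_of_exponent_le (ht₀.trans ht) (min_le_left _ _)
    · right
      exact h
  · intro L _ hL t ht htL n hn x
    refine le_trans ?_ (h2 L hL t ht htL n hn x)
    exact mul_le_mul_of_nonneg_right (min_le_right _ _) (by positivity)

end Pool.Agent.Results.MP_6c3d62_pr.ExponentiallyLongCycles
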