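import Pool.Agent.Q295.PL.All

/-!
# Random stirring in dimension two: Poisson-Dirichlet cycles at polylogarithmic times

Nearest neighbour stirring on the two-dimensional torus `(ℤ / L)^2`.  The ordered cycle lengths are
Poisson-Dirichlet(1) at all times `t ≥ (log L)^m`, the cycles of any `k` points are those of a
uniform permutation, with a rate; and at every large fixed time `t` the cycle of a point is longer
than `exp (t^c)` with probability at least `1 - t^(-1 + ε)`.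
-/

set_option autoImplicit false

namespace Pool.Agent.Results.MP_6c3d62_pr.PlanarPolylogTimes

open Finset Equiv
open Pool.Agent.Y998.ST (stirExp nnRate)
open Pool.Agent.Results.MP_b817cf_pr.LocalPoissonDirichlet (cycleFrac pdMean)
open Pool.Agent.Results.MP_b817cf_pr.TwoPointCriterion (cycleProb uniformProb)

open Classical in
/-- The probability that the cycle of `x` has at most `n` points at time `t`. -/
noncomputable def shortProb (L : ℕ) [NeZero L] (t : ℝ) (x : Fin 2 → ZMod L) (n : ℕ) : ℝ :=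
  stirExp (nnRate 2 L) t (fun g => if (univ.filter fun y => g.SameCycle x y).card ≤ n then 1 else 0)

theorem pd_all (hP : Q295.PL.S_PQT) : ∃ m : ℕ, 1 ≤ m ∧
    (∀ (j : ℕ) (f : (Fin j → ℝ) → ℝ), Continuous f → (∃ M, ∀ u, |f u| ≤ M) → ∀ η : ℝ, 0 < η →
      ∃ L₀ : ℕ, ∀ (L : ℕ) [NeZero L], L₀ ≤ L → ∀ t : ℝ, (Real.log L) ^ m ≤ t →
        |stirExp (nnRate 2 L) t (fun g => f (fun i : Fin j => cycleFrac g i)) - pdMean f| ≤ η) ∧
    ∀ (k : ℕ) (η : ℝ), 0 < η → ∃ L₀ : ℕ, ∀ (L : ℕ) [NeZero L], L₀ ≤ L →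
      ∀ t : ℝ, (Real.log L) ^ m ≤ t →
      ∀ b : Fin k → Fin 2 → ZMod L, Function.Injective b → ∀ R : Fin k → Fin k → Prop,
        |cycleProb 2 L t R b - uniformProb R| ≤ η := by
  obtain ⟨m, hm, hq⟩ := Q295.PL.q_two hP
  have hlog : Filter.Tendsto (fun L : ℕ => Real.log (L : ℝ)) Filter.atTop Filter.atTop :=
    Real.tendsto_log_atTop.comp tendsto_natCast_atTop_atTop
  -- the error of the scale is small
  have hsc : ∀ c : ℝ, 0 < c → ∃ L₀ : ℕ, ∀ (L : ℕ) [NeZero L], L₀ ≤ L → ∀ t : ℝ,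
      (Real.log L) ^ m ≤ t → Pool.Agent.Q295.TP.sc 2 L t ≤ c := by
    intro c hc
    have hcast : Filter.Tendsto (fun L : ℕ => (L : ℝ)) Filter.atTop Filter.atTop :=
      tendsto_natCast_atTop_atTop
    have h1 : ∀ᶠ L : ℕ in Filter.atTop, (Real.log (L : ℝ)) ^ (-(1 / 3) : ℝ) ≤ c / 2 :=
      ((tendsto_rpow_neg_atTop (show (0 : ℝ) < 1 / 3 by norm_num)).comp
        hlog).eventually_le_const (by positivity)
    have h2 : ∀ᶠ L : ℕ in Filter.atTop, (L : ℝ) ^ (-(2 : ℝ)) ≤ c / 2 :=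
      ((tendsto_rpow_neg_atTop (show (0 : ℝ) < 2 by norm_num)).comp
        hcast).eventually_le_const (by positivity)
    obtain ⟨L₀, hL₀⟩ := Filter.eventually_atTop.1
      (h1.and (h2.and (hlog.eventually_ge_atTop 1)))
    refine ⟨max L₀ 1, fun L _ hL t ht => ?_⟩
    obtain ⟨h3, h4, h5⟩ := hL₀ L ((le_max_left _ _).trans hL)
    have hL1 : (1 : ℝ) ≤ L := by exact_mod_cast (le_max_right _ _).trans hL
    have hL0 : (0 : ℝ) < L := by linarith
    have hlt : Real.log L ≤ t := by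
      refine le_trans ?_ ht
      calc Real.log L = Real.log L ^ 1 := (pow_one _).symm
        _ ≤ _ := pow_le_pow_right₀ h5 hm
    unfold Pool.Agent.Q295.TP.sc Pool.Agent.Q295.TP.kap
    have h6 : t ^ (-(((2 : ℕ) : ℝ) / (2 * (((2 : ℕ) : ℝ) + 1)))) ≤
        (Real.log (L : ℝ)) ^ (-(1 / 3) : ℝ) := by
      have h7 : t ^ (-(1 / 3) : ℝ) ≤ (Real.log (L : ℝ)) ^ (-(1 / 3) : ℝ) :=
        Real.rpow_le_rpow_of_nonpos (by linarith) hlt (by norm_num)
      have h8 : -(((2 : ℕ) : ℝ) / (2 * (((2 : ℕ) : ℝ) + 1))) = (-(1 / 3) : ℝ) := by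
        push_cast; norm_num
      rw [h8]
      exact h7
    have h7 : 1 / (L : ℝ) ^ 2 = (L : ℝ) ^ (-(2 : ℝ)) := by
      rw [Real.rpow_neg hL0.le, one_div]
      norm_num
    rw [h7]
    linarith
  refine ⟨m, hm, ?_, ?_⟩
  · rintro j f hf ⟨M, hM⟩ η hη
    obtain ⟨δ, hδ, N₀, hN₀, hpd⟩ := Pool.Agent.Q295.TP.pd_two j f hf M hM η hη
    obtain ⟨Cs, hCs, hscale⟩ := Pool.Agent.Q295.TP.scale 2 (by norm_num)
    obtain ⟨L₁, hq1⟩ := hq δ hδ
    have hNR : (0 : ℝ) < N₀ := by exact_mod_cast hN₀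
    have hCs0 : 0 < Cs := by linarith
    obtain ⟨L₂, hs⟩ := hsc (min (δ / Cs) (1 / (N₀ : ℝ))) (lt_min (by positivity) (by positivity))
    refine ⟨max 3 (max L₁ L₂), fun L _ hL t ht => ?_⟩
    have hL3 : 3 ≤ L := le_trans (le_max_left _ _) hL
    have hL1 : L₁ ≤ L := le_trans ((le_max_left _ _).trans (le_max_right _ _)) hL
    have hL2 : L₂ ≤ L := le_trans ((le_max_right _ _).trans (le_max_right _ _)) hL
    obtain ⟨ht1, h2⟩ := hq1 L hL1 t ht
    have h1 := hs L hL2 t ht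
    obtain ⟨r, η', hr1, hrL, hη0, hη1, hr2, hNN⟩ := hscale L hL3 t ht1
    obtain ⟨A, _, hAc, hAd⟩ := Pool.Agent.Q295.TP.exists_box (d := 2) (L := L) hr1 hrL 0
    have hrd : (0 : ℝ) < ((r ^ 2 : ℕ) : ℝ) := by exact_mod_cast pow_pos hr1 2
    have h5 : N₀ ≤ A.card := by
      rw [hAc]
      have h6 : 1 / ((r ^ 2 : ℕ) : ℝ) ≤ 1 / N₀ := hr2.trans (h1.trans (min_le_right _ _))
      rw [one_div_le_one_div hrd hNR] at h6
      exact_mod_cast h6
    have h7 : η' ≤ δ := by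
      have h8 : Pool.Agent.Q295.TP.sc 2 L t ≤ δ / Cs := h1.trans (min_le_left _ _)
      calc η' ≤ Cs * Pool.Agent.Q295.TP.sc 2 L t := hη1
        _ ≤ Cs * (δ / Cs) := mul_le_mul_of_nonneg_left h8 hCs0.le
        _ = δ := by field_simp
    have h9 := hpd (Fin 2 → ZMod L) (nnRate 2 L) Pool.Agent.Y998.ST.nn_nonneg t
      (by linarith) (Pool.Agent.Q295.TP.row_const t) h2 A h5
      (fun x hx y hy => (hNN x y (hAd x hx y hy)).trans h7)
    simp only [Pool.Agent.Results.MP_b817cf_pr.LocalPoissonDirichlet.frac_eq,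
      Pool.Agent.Results.MP_b817cf_pr.LocalPoissonDirichlet.pd_eq]
    exact h9
  · intro k η hη
    obtain ⟨C, hC, h⟩ := Pool.Agent.Q295.TP.k_points 2 (by norm_num) k
    obtain ⟨c, hc⟩ : ∃ c : ℝ, c = (η / C) ^ 2 / 2 := ⟨_, rfl⟩
    have hc0 : 0 < c := by rw [hc]; positivity
    obtain ⟨L₁, hq1⟩ := hq c hc0
    obtain ⟨L₂, hs⟩ := hsc c hc0
    refine ⟨max 3 (max L₁ L₂), fun L _ hL t ht b hb R => ?_⟩
    have hL3 : 3 ≤ L := le_trans (le_max_left _ _) hL
    have hL1 : L₁ ≤ L := le_trans ((le_max_left _ _).trans (le_max_right _ _)) hL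
    have hL2 : L₂ ≤ L := le_trans ((le_max_right _ _).trans (le_max_right _ _)) hL
    obtain ⟨ht1, h2⟩ := hq1 L hL1 t ht
    have h1 := hs L hL2 t ht
    rw [Pool.Agent.Results.MP_b817cf_pr.TwoPointCriterion.prob_eq,
      Pool.Agent.Results.MP_b817cf_pr.TwoPointCriterion.unif_eq]
    refine (h L hL3 t ht1 b hb R).trans ?_
    have h3 : max 0 (1 / 2 - Pool.Agent.Q295.TP.qq2 (nnRate 2 L) t) ≤ c :=
      max_le hc0.le (by linarith)
    have h4 : Real.sqrt (Pool.Agent.Q295.TP.sc 2 L t +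
        max 0 (1 / 2 - Pool.Agent.Q295.TP.qq2 (nnRate 2 L) t)) ≤ η / C := by
      rw [← Real.sqrt_sq (show 0 ≤ η / C by positivity)]
      apply Real.sqrt_le_sqrt
      have : (η / C) ^ 2 = c + c := by rw [hc]; ring
      linarith
    calc C * Real.sqrt (Pool.Agent.Q295.TP.sc 2 L t +
          max 0 (1 / 2 - Pool.Agent.Q295.TP.qq2 (nnRate 2 L) t)) ≤ C * (η / C) :=
          mul_le_mul_of_nonneg_left h4 hC.le
      _ = η := by field_simp

/-- Nearest neighbour random stirring on the two-dimensional torus `(ℤ / L)^2`, started at the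
identity.  There is `m` such that, for all times `t ≥ (log L)^m`:

(1) the ordered cycle lengths divided by `L^2` converge in law to Poisson-Dirichlet(1) as `L → ∞`,
uniformly over these times;

(2) the probability that given pairs of `k` distinct points are in the same cycle converges to its
value for a uniform permutation of `k` letters, uniformly over these times, over all choices of `k`
distinct points of the torus and over all sets of pairs;

(3) if moreover `t^4 ≤ L^7`, the difference in (2) is at most `C t^(-1/32)`, `C` depending on `k`.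

(4) For every `ε > 0` there are `C, c > 0` such that for all `L`, `t ≥ C` and `n ≤ exp (t^c)` with
`n t ≤ L^2` the cycle of a point has at most `n` points with probability at most
`C t^ε (1 / t + n / L^2)`. -/
theorem result :
    (∃ m : ℕ,
      (∀ (j : ℕ) (f : (Fin j → ℝ) → ℝ), Continuous f → (∃ M, ∀ u, |f u| ≤ M) → ∀ η : ℝ, 0 < η →
        ∃ L₀ : ℕ, ∀ (L : ℕ) [NeZero L], L₀ ≤ L → ∀ t : ℝ, (Real.log L) ^ m ≤ t →
          |stirExp (nnRate 2 L) t (fun g => f (fun i : Fin j => cycleFrac g i)) - pdMean f| ≤ η) ∧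
      (∀ (k : ℕ) (η : ℝ), 0 < η → ∃ L₀ : ℕ, ∀ (L : ℕ) [NeZero L], L₀ ≤ L →
        ∀ t : ℝ, (Real.log L) ^ m ≤ t →
        ∀ b : Fin k → Fin 2 → ZMod L, Function.Injective b → ∀ R : Fin k → Fin k → Prop,
          |cycleProb 2 L t R b - uniformProb R| ≤ η) ∧
      ∀ k : ℕ, ∃ C : ℝ, 0 < C ∧ ∀ (L : ℕ) [NeZero L], 3 ≤ L → ∀ t : ℝ, 1 ≤ t →
        (Real.log L) ^ m ≤ t → t ^ 4 ≤ (L : ℝ) ^ 7 →
        ∀ b : Fin k → Fin 2 → ZMod L, Function.Injective b → ∀ R : Fin k → Fin k → Prop,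
          |cycleProb 2 L t R b - uniformProb R| ≤ C * t ^ (-(1 / 32) : ℝ)) ∧
    ∀ ε : ℝ, 0 < ε → ∃ C c : ℝ, 0 < c ∧ ∀ (L n : ℕ) [NeZero L] (t : ℝ), C ≤ t →
      (n : ℝ) ≤ Real.exp (t ^ c) → n * t ≤ (L : ℝ) ^ 2 → ∀ x : Fin 2 → ZMod L,
      shortProb L t x n ≤ C * t ^ ε * (1 / t + n / (L : ℝ) ^ 2) := by
  refine ⟨?_, fun ε hε => ?_⟩
  · obtain ⟨m₁, hm₁, h1, h2⟩ := pd_all Q295.PL.all_pqt
    obtain ⟨m₂, h3⟩ := Q295.PL.k_rate Q295.PL.all_pqt
    obtain ⟨L₃, hL₃⟩ := Filter.eventually_atTop.1 ((Real.tendsto_log_atTop.comp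
      tendsto_natCast_atTop_atTop).eventually_ge_atTop (1 : ℝ))
    have hlog1 : ∀ L : ℕ, L₃ ≤ L → 1 ≤ Real.log (L : ℝ) := fun L hL => hL₃ L hL
    have hpow : ∀ (m' : ℕ), m' ≤ m₁ + m₂ → ∀ (L : ℕ) (t : ℝ), L₃ ≤ L →
        (Real.log L) ^ (m₁ + m₂) ≤ t → (Real.log L) ^ m' ≤ t := by
      intro m' hm' L t hL ht
      exact (pow_le_pow_right₀ (hlog1 L hL) hm').trans ht
    refine ⟨m₁ + m₂, ?_, ?_, ?_⟩
    · intro j f hf hM η hη
      obtain ⟨L₀, h⟩ := h1 j f hf hM η hη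
      exact ⟨max L₀ L₃, fun L _ hL t ht => h L ((le_max_left _ _).trans hL) t
        (hpow m₁ (by omega) L t ((le_max_right _ _).trans hL) ht)⟩
    · intro k η hη
      obtain ⟨L₀, h⟩ := h2 k η hη
      exact ⟨max L₀ L₃, fun L _ hL t ht b hb R => h L ((le_max_left _ _).trans hL) t
        (hpow m₁ (by omega) L t ((le_max_right _ _).trans hL) ht) b hb R⟩
    · intro k
      obtain ⟨C, hC, h⟩ := h3 k
      refine ⟨C, hC, fun L _ hL t ht hlt hc b hb R => ?_⟩
      rw [Pool.Agent.Results.MP_b817cf_pr.TwoPointCriterion.prob_eq,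
        Pool.Agent.Results.MP_b817cf_pr.TwoPointCriterion.unif_eq]
      refine h L hL t ht ?_ hc b hb R
      have hl1 : 1 ≤ Real.log (L : ℝ) := by
        rw [Real.le_log_iff_exp_le (by exact_mod_cast (by omega : 0 < L))]
        have h3L : (3 : ℝ) ≤ L := by exact_mod_cast hL
        linarith [Real.exp_one_lt_d9]
      exact (pow_le_pow_right₀ hl1 (by omega)).trans hlt
  · obtain ⟨C, c, hc, h⟩ := Q295.PL.all_fxt 2 le_rfl ε hε
    refine ⟨C, c, hc, fun L n _ t ht hn hnt x => ?_⟩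
    refine le_trans (le_of_eq ?_) (h L n t ht hn hnt x)
    unfold shortProb Q292.LC.cyc
    congr!

end Pool.Agent.Results.MP_6c3d62_pr.PlanarPolylogTimes
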