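import Pool.Agent.Q295.CD.Rig
import Pool.Agent.Results.MP_b817cf_pr.TwoPointCriterion

/-!
# Random stirring on the torus: the long cycles are dominated by Poisson-Dirichlet(1)

Nearest neighbour stirring on `(ℤ / L)^d`, any `d ≥ 1`, at large times `t`, whatever `L` is.  Any
`k` points are in one cycle with probability at most `1 / k + o(1)`; the ordered cycle lengths are
dominated by the Poisson-Dirichlet(1) sequence in the convex order of their partial sums; and they
are Poisson-Dirichlet(1) as soon as the bound `1 / k` is attained for one `k ≥ 2`.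
-/

set_option autoImplicit false

namespace Pool.Agent.Results.MP_6c3d62_pr.PoissonDirichletDominates

open Finset Equiv Filter Topology
open Pool.Agent.Y998.ST (stirExp nnRate)
open Pool.Agent.Results.MP_b817cf_pr.LocalPoissonDirichlet (cycleFrac pdMean)
open Pool.Agent.Results.MP_b817cf_pr.TwoPointCriterion (cycleProb pairProb)

/-- The probability that `k` independent uniform points of the torus `(ℤ / L)^d` are in the same
cycle at time `t`, that is, the mean of the sum of the `k`-th powers of the cycle lengths divided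
by `L^d`. -/
noncomputable def samePointsProb (d L : ℕ) [NeZero L] (t : ℝ) (k : ℕ) : ℝ :=
  (∑ b : Fin k → Fin d → ZMod L, cycleProb d L t (fun _ _ => True) b) / ((L : ℝ) ^ d) ^ k

section bridge

open Pool.Agent.Q295.TP Pool.Agent.Q295.CD

theorem same_eq (d L : ℕ) [NeZero L] (t : ℝ) (k : ℕ) : samePointsProb d L t k =
    av (fun _ : Fin k => (univ : Finset (Fin d → ZMod L))) (PR (nnRate d L) t (RT k)) := by
  unfold samePointsProb av
  rw [Fintype.piFinset_univ, Finset.card_univ, Fintype.card_fun, Fintype.card_fin]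
  push_cast
  rw [Pool.Agent.Results.MP_b817cf_pr.TwoPointCriterion.card_torus]
  congr 1
  exact Finset.sum_congr rfl fun b _ =>
    Pool.Agent.Results.MP_b817cf_pr.TwoPointCriterion.prob_eq d L t _ b

/-- translates of a box -/
theorem box_tr {d L : ℕ} [NeZero L] {r : ℕ} (h1 : 1 ≤ r) (h2 : r ≤ L) :
    ∃ B : Finset (Fin d → ZMod L), B.card = r ^ d ∧ ∀ z, ∀ x ∈ tr B z, ∀ y ∈ tr B z,
      Pool.Agent.Y998.LP.tdist x y ≤ d * r := by
  obtain ⟨A, _, hA, hd⟩ := exists_box (d := d) h1 h2 0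
  refine ⟨A, hA, fun z x hx y hy => ?_⟩
  have h3 := hd _ (mem_tr hx) _ (mem_tr hy)
  have h4 : Pool.Agent.Y998.LP.tdist (x - z) (y - z) = Pool.Agent.Y998.LP.tdist x y := by
    unfold Pool.Agent.Y998.LP.tdist
    refine Finset.sum_congr rfl fun i _ => ?_
    rw [Pi.sub_apply, Pi.sub_apply, sub_sub_sub_cancel_right]
  rwa [h4] at h3

theorem same_near (d : ℕ) (hd : 1 ≤ d) (k : ℕ) (hk : 1 ≤ k) : ∃ C : ℝ, 0 < C ∧
    ∀ (L : ℕ) [NeZero L], 3 ≤ L → ∀ t : ℝ, 1 ≤ t →
      |samePointsProb d L t k - 1 / k| ≤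
        C * Real.sqrt (sc d L t + max 0 (1 / 2 - qq2 (nnRate d L) t)) +
          (k : ℝ) ^ 2 / (L : ℝ) ^ d := by
  obtain ⟨C, hC, h⟩ := k_points d hd k
  refine ⟨C, hC, fun L _ hL t ht => ?_⟩
  obtain ⟨X, hX⟩ : ∃ X, X = C * Real.sqrt (sc d L t + max 0 (1 / 2 - qq2 (nnRate d L) t)) :=
    ⟨_, rfl⟩
  have hX0 : 0 ≤ X := by rw [hX]; exact mul_nonneg hC.le (Real.sqrt_nonneg _)
  have hcard : ((univ : Finset (Fin d → ZMod L)).card : ℝ) = (L : ℝ) ^ d := by
    rw [Finset.card_univ]
    exact Pool.Agent.Results.MP_b817cf_pr.TwoPointCriterion.card_torus d L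
  have hU : 0 < (univ : Finset (Fin d → ZMod L)).card :=
    Finset.card_pos.2 Finset.univ_nonempty
  have h1 : ∀ c ∈ Fintype.piFinset (fun _ : Fin k => (univ : Finset (Fin d → ZMod L))),
      |1 / (k : ℝ) - PR (nnRate d L) t (RT k) c| ≤ X + bad1 c := by
    intro c _
    have hb1 := bad1_nonneg c
    by_cases hc1 : ∃ i j, i ≠ j ∧ c i = c j
    · obtain ⟨i, j, hij, hcij⟩ := hc1
      have h2 := bad1_one hij hcij
      have hone : |1 / (k : ℝ) - PR (nnRate d L) t (RT k) c| ≤ 1 := by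
        refine abs_sub_le_one (by positivity) ?_
          (PR_nonneg Pool.Agent.Y998.ST.nn_nonneg (by linarith) _ c)
          (PR_le_one Pool.Agent.Y998.ST.nn_nonneg (by linarith) _ c)
        rw [div_le_one (by exact_mod_cast hk)]
        exact_mod_cast hk
      linarith
    · push Not at hc1
      have hinj : Function.Injective c := by
        intro i j hij
        by_contra hne
        exact hc1 i j hne hij
      have h2 := h L hL t ht c hinj (RT k)
      rw [unif_one hk, ← hX, abs_sub_comm] at h2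
      linarith
  rw [same_eq, abs_sub_comm, ← hX]
  refine (av_near (fun _ => hU) _ h1).trans ?_
  rw [av_add, av_const (fun _ => hU)]
  have h2 := av_bad1 (A := fun _ : Fin k => (univ : Finset (Fin d → ZMod L))) hU (fun _ => rfl)
  have h5 : av (fun _ : Fin k => (univ : Finset (Fin d → ZMod L)))
      (fun c : Fin k → Fin d → ZMod L => bad1 c) =
      av (fun _ : Fin k => (univ : Finset (Fin d → ZMod L))) bad1 := rfl
  rw [h5]
  rw [hcard] at h2
  linarith

theorem rig_torus (d : ℕ) (hd : 1 ≤ d) (k : ℕ) (hk : 2 ≤ k) : ∃ C : ℝ, 0 < C ∧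
    ∀ (L : ℕ) [NeZero L], 3 ≤ L → ∀ t : ℝ, 1 ≤ t → ∀ θ : ℝ, 0 < θ →
      1 / 2 - qq2 (nnRate d L) t ≤ C * sc d L t + 2 * θ +
        (1 / k + C * sc d L t - samePointsProb d L t k) / θ ^ (k - 2) := by
  obtain ⟨C, hC, h⟩ := scale d hd
  refine ⟨2 * C + 4 + (k * C + k ^ 2), by positivity, fun L _ hL t ht θ hθ => ?_⟩
  obtain ⟨r, η, hr1, hrL, hη0, hη1, hr2, hNN⟩ := h L hL t ht
  obtain ⟨B, hB, hBd⟩ := box_tr (d := d) (L := L) hr1 hrL
  have h1 := rig (J := nnRate d L) Pool.Agent.Y998.ST.nn_nonneg (show 0 ≤ t by linarith)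
    (row_const t) (B := B) (n := r ^ d) (pow_pos hr1 d) hB hη0
    (fun z x hx y hy => hNN x y (hBd z x hx y hy)) hk hθ
  rw [same_eq]
  have hs := sc_nonneg d L (show 0 ≤ t by linarith)
  have hθk : 0 < θ ^ (k - 2) := by positivity
  have h2 : 4 / ((r ^ d : ℕ) : ℝ) ≤ 4 * sc d L t := by
    rw [div_eq_mul_one_div]
    exact mul_le_mul_of_nonneg_left hr2 (by norm_num)
  have h3 : (k : ℝ) ^ 2 / ((r ^ d : ℕ) : ℝ) ≤ k ^ 2 * sc d L t := by
    rw [div_eq_mul_one_div]
    exact mul_le_mul_of_nonneg_left hr2 (by positivity)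
  have h4 : (k : ℝ) * η ≤ k * (C * sc d L t) := mul_le_mul_of_nonneg_left hη1 (by positivity)
  have h5 : 0 ≤ C * sc d L t := by positivity
  have h6 : 0 ≤ (k : ℝ) * (C * sc d L t) := by positivity
  have h7 : 0 ≤ (k : ℝ) ^ 2 * sc d L t := by positivity
  obtain ⟨P, hP⟩ : ∃ P, P = av (fun _ : Fin k => (univ : Finset (Fin d → ZMod L)))
    (PR (nnRate d L) t (RT k)) := ⟨_, rfl⟩
  rw [← hP] at h1 ⊢
  have h8 : (1 / (k : ℝ) + (k * η + (k : ℝ) ^ 2 / ((r ^ d : ℕ) : ℝ)) - P) / θ ^ (k - 2) ≤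
      (1 / (k : ℝ) + (2 * C + 4 + (k * C + k ^ 2)) * sc d L t - P) / θ ^ (k - 2) := by
    refine div_le_div_of_nonneg_right ?_ hθk.le
    nlinarith
  nlinarith

end bridge

/-- Nearest neighbour random stirring on the torus `(ℤ / L)^d`, `d ≥ 1` arbitrary, started at the
identity.

(1) For every `k ≥ 1`, all `L ≥ 3`, all `t ≥ 1` and any `k` distinct points of the torus, at
arbitrary positions, the probability that they are all in the same cycle is at most
`1 / k + C (t^(-d/(2d+2)) + L^(-d))`, with `C` depending on `d` and `k` only.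

(2) For every continuous `F` of `m` variables that is convex and nondecreasing in each variable and
every `ε > 0` there is `T` such that for all `L ≥ T` and all `t ≥ T` the mean of `F (S 1, ..., S m)`
is at most its Poisson-Dirichlet(1) mean plus `ε`, where `S j` is the fraction of the torus covered
by the `j` longest cycles.

(3) Let `L n → ∞` and `t n → ∞`, at any speed, and `k ≥ 2`.  The probability that `k` independent
uniform points are in the same cycle tends to `1 / k` if and only if the ordered cycle lengths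
divided by `(L n)^d` converge in law to Poisson-Dirichlet(1). -/
theorem result (d : ℕ) (hd : 1 ≤ d) :
    (∀ k : ℕ, 1 ≤ k → ∃ C : ℝ, 0 < C ∧ ∀ (L : ℕ) [NeZero L], 3 ≤ L → ∀ t : ℝ, 1 ≤ t →
      ∀ b : Fin k → Fin d → ZMod L, Function.Injective b →
        cycleProb d L t (fun _ _ => True) b ≤
          1 / k + C * (t ^ (-((d : ℝ) / (2 * (d + 1)))) + 1 / (L : ℝ) ^ d)) ∧
    (∀ (m : ℕ) (F : (Fin m → ℝ) → ℝ), Continuous F → Monotone F → ConvexOn ℝ Set.univ F →
      ∀ ε : ℝ, 0 < ε → ∃ T : ℝ, ∀ (L : ℕ) [NeZero L], T ≤ L → ∀ t : ℝ, T ≤ t →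
        stirExp (nnRate d L) t
            (fun g => F (fun j : Fin m => ∑ i ∈ range ((j : ℕ) + 1), cycleFrac g i)) ≤
          pdMean (fun u : Fin m → ℝ => F (fun j => ∑ i ∈ univ.filter (fun i => i ≤ j), u i)) +
            ε) ∧
    ∀ (L : ℕ → ℕ) [∀ n, NeZero (L n)] (t : ℕ → ℝ), Tendsto L atTop atTop →
      Tendsto t atTop atTop → ∀ k : ℕ, 2 ≤ k →
        (Tendsto (fun n => samePointsProb d (L n) (t n) k) atTop (𝓝 (1 / k)) ↔
        ∀ (m : ℕ) (f : (Fin m → ℝ) → ℝ), Continuous f → (∃ M, ∀ u, |f u| ≤ M) →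
          Tendsto (fun n => stirExp (nnRate d (L n)) (t n)
            (fun g => f (fun i : Fin m => cycleFrac g i))) atTop (𝓝 (pdMean f))) := by
  classical
  refine ⟨fun k hk => ?_, fun m F hFc hFm hF ε hε => ?_, ?_⟩
  · obtain ⟨C, hC, h⟩ := Pool.Agent.Q295.CD.conn_torus d hd k hk
    refine ⟨C, hC, fun L _ hL t ht b hb => ?_⟩
    rw [Pool.Agent.Results.MP_b817cf_pr.TwoPointCriterion.prob_eq,
      ← Pool.Agent.Results.MP_b817cf_pr.TwoPointCriterion.sc_eq]
    exact h L hL t ht b hb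
  · obtain ⟨M, hM⟩ := Pool.Agent.Q295.CD.cl_bdd hFc
    obtain ⟨δ, hδ, N₀, hN₀, hpd⟩ := Pool.Agent.Y998.LQ.pd_gen m (Pool.Agent.Q295.CD.cl m F)
      (Pool.Agent.Q295.CD.cl_cont hFc) M hM ε hε
    obtain ⟨Cs, hCs, hscale⟩ := Pool.Agent.Q295.TP.scale d hd
    have hNR : (0 : ℝ) < N₀ := by exact_mod_cast hN₀
    have hCs0 : 0 < Cs := by linarith
    have hdR : (1 : ℝ) ≤ d := by exact_mod_cast hd
    obtain ⟨c, hc⟩ : ∃ c : ℝ, c = min (δ / Cs) (1 / (N₀ : ℝ)) := ⟨_, rfl⟩
    have hc0 : 0 < c := by rw [hc]; exact lt_min (by positivity) (by positivity)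
    have hk0 : 0 < Pool.Agent.Q295.TP.kap d := by unfold Pool.Agent.Q295.TP.kap; positivity
    have h1 : ∀ᶠ t : ℝ in atTop, t ^ (-Pool.Agent.Q295.TP.kap d) ≤ c / 2 :=
      (tendsto_rpow_neg_atTop hk0).eventually_le_const (by positivity)
    have h2 : ∀ᶠ x : ℝ in atTop, 1 / x ^ d ≤ c / 2 := by
      have h3 : Tendsto (fun x : ℝ => 1 / x ^ d) atTop (𝓝 0) := by
        refine Tendsto.div_atTop tendsto_const_nhds ?_
        exact tendsto_pow_atTop (show d ≠ 0 by omega)
      exact h3.eventually_le_const (by positivity)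
    obtain ⟨T, hT⟩ := eventually_atTop.1 (h1.and (h2.and (eventually_ge_atTop (3 : ℝ))))
    refine ⟨T, fun L _ hL t ht => ?_⟩
    have h3 := (hT t ht).1
    have h4 := (hT L hL).2.1
    have hL3 : 3 ≤ L := by exact_mod_cast (hT L hL).2.2
    have ht1 : 1 ≤ t := by linarith [(hT t ht).2.2]
    have hsc : Pool.Agent.Q295.TP.sc d L t ≤ c := by
      unfold Pool.Agent.Q295.TP.sc
      linarith
    obtain ⟨r, η, hr1, hrL, hη0, hη1, hr2, hNN⟩ := hscale L hL3 t ht1
    obtain ⟨B, hB, hBd⟩ := box_tr (d := d) (L := L) hr1 hrL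
    have hrd : (0 : ℝ) < ((r ^ d : ℕ) : ℝ) := by exact_mod_cast pow_pos hr1 d
    have h5 : N₀ ≤ r ^ d := by
      have h6 : 1 / ((r ^ d : ℕ) : ℝ) ≤ 1 / N₀ :=
        hr2.trans (hsc.trans (by rw [hc]; exact min_le_right _ _))
      rw [one_div_le_one_div hrd hNR] at h6
      exact_mod_cast h6
    have h7 : η ≤ δ := by
      have h8 : Pool.Agent.Q295.TP.sc d L t ≤ δ / Cs :=
        hsc.trans (by rw [hc]; exact min_le_left _ _)
      calc η ≤ Cs * Pool.Agent.Q295.TP.sc d L t := hη1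
        _ ≤ Cs * (δ / Cs) := mul_le_mul_of_nonneg_left h8 hCs0.le
        _ = δ := by field_simp
    have h9 := Pool.Agent.Q295.CD.dominate (J := nnRate d L) Pool.Agent.Y998.ST.nn_nonneg
      (show 0 ≤ t by linarith) F hFm hF B (by rw [hB]; exact pow_pos hr1 d) ε (fun z =>
        hpd (Fin d → ZMod L) (nnRate d L) Pool.Agent.Y998.ST.nn_nonneg t (by linarith)
          (Pool.Agent.Q295.CD.tr B z) (by rw [Pool.Agent.Q295.CD.tr_card, hB]; exact h5)
          (fun x hx y hy => (hNN x y (hBd z x hx y hy)).trans h7))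
    rw [Pool.Agent.Results.MP_b817cf_pr.LocalPoissonDirichlet.pd_eq, ← Pool.Agent.Q295.CD.pdm_cl]
    refine le_trans (le_of_eq ?_) h9
    congr 1
    funext g
    haveI : Finite (Pool.Agent.TH268.PD.Cyc g) := Quotient.finite _
    haveI := Fintype.ofFinite (Pool.Agent.TH268.PD.Cyc g)
    rw [Pool.Agent.Q295.CD.cl_top]
    simp only [Pool.Agent.Results.MP_b817cf_pr.LocalPoissonDirichlet.frac_eq]
    rfl
  · intro L _ t hL ht k hk
    have hsc := Pool.Agent.Results.MP_b817cf_pr.TwoPointCriterion.sc_tendsto d hd hL ht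
    have hL3 : ∀ᶠ n in atTop, 3 ≤ L n := hL.eventually_ge_atTop 3
    have ht1 : ∀ᶠ n in atTop, 1 ≤ t n := ht.eventually_ge_atTop 1
    have htf := (Pool.Agent.Results.MP_b817cf_pr.TwoPointCriterion.result d hd).2.2 L t hL ht
    have h12 := htf.out 0 1
    rw [← h12]
    obtain ⟨C1, hC1, hup⟩ := Pool.Agent.Q295.TP.upper d hd
    have hC10 : 0 < C1 := by linarith
    constructor
    · intro h
      obtain ⟨C, hC, hr⟩ := rig_torus d hd k hk
      rw [Metric.tendsto_nhds]
      intro ε hε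
      obtain ⟨θ, hθ⟩ : ∃ θ : ℝ, θ = ε / 8 := ⟨_, rfl⟩
      have hθ0 : 0 < θ := by rw [hθ]; positivity
      have hθk : 0 < θ ^ (k - 2) := by positivity
      have h1 : Tendsto (fun n => C * Pool.Agent.Q295.TP.sc d (L n) (t n) + 2 * θ +
          (1 / k + C * Pool.Agent.Q295.TP.sc d (L n) (t n) - samePointsProb d (L n) (t n) k) /
            θ ^ (k - 2)) atTop (𝓝 (C * 0 + 2 * θ + (1 / k + C * 0 - 1 / k) / θ ^ (k - 2))) :=
        ((hsc.const_mul C).add_const _).add
          ((((hsc.const_mul C).const_add _).sub h).div_const _)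
      have h2 : C * 0 + 2 * θ + (1 / (k : ℝ) + C * 0 - 1 / k) / θ ^ (k - 2) < ε / 2 := by
        rw [mul_zero, add_zero, sub_self, zero_div, hθ]
        linarith
      have h3 := h1.eventually_lt_const h2
      have h4 : ∀ᶠ n in atTop, Pool.Agent.Q295.TP.sc d (L n) (t n) < ε / (2 * C1) :=
        hsc.eventually_lt_const (by positivity)
      filter_upwards [h3, h4, hL3, ht1] with n h3 h4 h5 h6
      have h7 := hr (L n) h5 (t n) h6 θ hθ0
      have h8 := hup (L n) h5 (t n) h6
      have h9 : C1 * Pool.Agent.Q295.TP.sc d (L n) (t n) < ε / 2 := by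
        calc C1 * Pool.Agent.Q295.TP.sc d (L n) (t n) < C1 * (ε / (2 * C1)) :=
              mul_lt_mul_of_pos_left h4 hC10
          _ = ε / 2 := by field_simp
      rw [Real.dist_eq, Pool.Agent.Results.MP_b817cf_pr.TwoPointCriterion.pair_eq, abs_lt]
      constructor <;> linarith
    · intro h
      obtain ⟨C, hC, hn⟩ := same_near d hd k (by omega)
      have h2 : Tendsto (fun n => max 0 (1 / 2 -
          Pool.Agent.Q295.TP.qq2 (nnRate d (L n)) (t n))) atTop (𝓝 (max 0 (1 / 2 - 1 / 2))) := by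
        refine Tendsto.max tendsto_const_nhds (Tendsto.sub tendsto_const_nhds ?_)
        simp only [Pool.Agent.Results.MP_b817cf_pr.TwoPointCriterion.pair_eq] at h
        exact h
      have h3 : Tendsto (fun n => (k : ℝ) ^ 2 / (L n : ℝ) ^ d) atTop (𝓝 0) := by
        refine Tendsto.div_atTop tendsto_const_nhds ?_
        exact (tendsto_pow_atTop (show d ≠ 0 by omega)).comp
          (tendsto_natCast_atTop_atTop.comp hL)
      have h4 : Tendsto (fun n => C * Real.sqrt (Pool.Agent.Q295.TP.sc d (L n) (t n) +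
          max 0 (1 / 2 - Pool.Agent.Q295.TP.qq2 (nnRate d (L n)) (t n))) +
          (k : ℝ) ^ 2 / (L n : ℝ) ^ d) atTop (𝓝 0) := by
        have h5 := ((hsc.add h2).sqrt.const_mul C).add h3
        simpa using h5
      rw [tendsto_iff_norm_sub_tendsto_zero]
      refine squeeze_zero' (Eventually.of_forall fun n => norm_nonneg _) ?_ h4
      filter_upwards [hL3, ht1] with n h5 h6
      rw [Real.norm_eq_abs]
      exact hn (L n) h5 (t n) h6

end Pool.Agent.Results.MP_6c3d62_pr.PoissonDirichletDominates
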